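import Pool.Agent.helper616_TP.Defs

/-!
# Project TR (helper616): primes in a long window
-/

set_option autoImplicit false
set_option maxHeartbeats 4000000

open Finset MeasureTheory Filter Topology
open Pool.Agent.helper616_TS (e LogBdd)

namespace Pool.Agent.helper616_TW

namespace TR1


private theorem pow_diff_aux {z q P : ℝ} (hz : 0 ≤ z) (hzq : z ≤ q) (hqP : q ≤ P) :
    ∀ n : ℕ, q ^ (n + 1) - z ^ (n + 1) ≤ ((n : ℝ) + 1) * (q - z) * P ^ n := by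
  intro n
  induction n with
  | zero => simp
  | succ n ih =>
    have hq0 : 0 ≤ q := hz.trans hzq
    have hP0 : 0 ≤ P := hq0.trans hqP
    have h1 : q ^ (n + 1 + 1) - z ^ (n + 1 + 1) =
        q * (q ^ (n + 1) - z ^ (n + 1)) + (q - z) * z ^ (n + 1) := by ring
    have h2 : q * (q ^ (n + 1) - z ^ (n + 1)) ≤ P * (((n : ℝ) + 1) * (q - z) * P ^ n) := by
      have h3 : 0 ≤ q ^ (n + 1) - z ^ (n + 1) :=
        sub_nonneg.2 (pow_le_pow_left₀ hz hzq _)
      exact mul_le_mul hqP ih h3 hP0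
    have h4 : (q - z) * z ^ (n + 1) ≤ (q - z) * P ^ (n + 1) :=
      mul_le_mul_of_nonneg_left (pow_le_pow_left₀ hz (hzq.trans hqP) _) (sub_nonneg.2 hzq)
    rw [h1]
    push_cast
    calc q * (q ^ (n + 1) - z ^ (n + 1)) + (q - z) * z ^ (n + 1)
        ≤ P * (((n : ℝ) + 1) * (q - z) * P ^ n) + (q - z) * P ^ (n + 1) := add_le_add h2 h4
      _ = ((n : ℝ) + 1 + 1) * (q - z) * P ^ (n + 1) := by ring

set_option maxHeartbeats 4000000 in
theorem lowerP (hH : Hoheisel) : ∃ δ : ℝ, 0 < δ ∧ δ < 1 ∧ ∀ (k : ℕ) (_ : 1 ≤ k) (a b τ : ℝ) (_ : 0 < a) (_ : a < b)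
    (_ : 0 < τ) (_ : τ < a / 2), ∃ c : ℝ, 0 < c ∧ ∀ᶠ P : ℕ in atTop, ∀ l ∈ cube (k + 1) a b, ∀ t : ℝ,
      τ * (P : ℝ) ^ k ≤ t → t ≤ a * (P : ℝ) ^ k / 2 →
      c * (P : ℝ) ^ ((k : ℝ) + 1 - δ) / (Real.log P) ^ (k + 1) ≤
        (((box (k + 1) P).filter (fun x => (∀ i, (x i).Prime) ∧ t < F k l x ∧ F k l x ≤ t + (P : ℝ) ^ ((k : ℝ) - δ))).card : ℝ) := by
  classical
  obtain ⟨δ0, η, hδ0, hδ1, hη, X₀, hX0, hpr⟩ := hH
  refine ⟨δ0 / 2, by positivity, by linarith, ?_⟩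
  intro k hk a b τ ha hab hτ hτa
  set δ : ℝ := δ0 / 2 with hδ
  have hδpos : 0 < δ := by positivity
  have hδlt : δ < 1 := by linarith
  have hb : 0 < b := ha.trans hab
  have hk0 : (0 : ℝ) < k := by exact_mod_cast (by omega : 0 < k)
  have hk1 : (1 : ℝ) ≤ k := by exact_mod_cast (by omega : 1 ≤ k)
  have hkne : k ≠ 0 := by omega
  set ε : ℝ := min 1 (τ / (2 * k * b)) with hε
  have hεpos : 0 < ε := lt_min one_pos (by positivity)
  have hε1 : ε ≤ 1 := min_le_left _ _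
  have hεk : k * b * ε ^ k ≤ τ / 2 := by
    have h1 : ε ^ k ≤ ε := pow_le_of_le_one hεpos.le hε1 hkne
    have h2 : ε ≤ τ / (2 * k * b) := min_le_right _ _
    calc k * b * ε ^ k ≤ k * b * (τ / (2 * k * b)) :=
          mul_le_mul_of_nonneg_left (h1.trans h2) (by positivity)
      _ = τ / 2 := by field_simp
  set c2 : ℝ := min 1 (τ / (2 * b)) with hc2
  have hc2pos : 0 < c2 := lt_min one_pos (by positivity)
  have hc21 : c2 ≤ 1 := min_le_left _ _
  have hc2k : c2 ^ k ≤ τ / (2 * b) :=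
    (pow_le_of_le_one hc2pos.le hc21 hkne).trans (min_le_right _ _)
  set c3 : ℝ := 1 / (k * b) with hc3
  have hc3pos : 0 < c3 := by positivity
  set θ : ℝ := 1 - 1 / (2 * k) with hθ
  have hθk : 1 / 2 ≤ θ ^ k := by
    have h1 : (-2 : ℝ) ≤ -(1 / (2 * k)) := by
      have : 1 / (2 * (k : ℝ)) ≤ 1 := by
        rw [div_le_one (by positivity)]; linarith
      linarith
    have h2 := one_add_mul_le_pow h1 k
    have h3 : 1 + (k : ℝ) * -(1 / (2 * k)) = 1 / 2 := by field_simp; norm_num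
    rw [h3] at h2
    have h4 : 1 + -(1 / (2 * (k : ℝ))) = θ := by rw [hθ]; ring
    rwa [h4] at h2
  have hθ0 : 0 ≤ θ := by
    rw [hθ, sub_nonneg, div_le_one (by positivity)]; linarith
  refine ⟨(η * ε / 4) ^ k * (η * c3 / 2), by positivity, ?_⟩
  -- eventual conditions
  have tP : Tendsto (fun P : ℕ => (P : ℝ)) atTop atTop := tendsto_natCast_atTop_atTop
  have t1 : Tendsto (fun P : ℕ => (P : ℝ) ^ (1 - δ)) atTop atTop :=
    (tendsto_rpow_atTop (by linarith)).comp tP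
  have t2 : Tendsto (fun P : ℕ => (P : ℝ) ^ δ) atTop atTop :=
    (tendsto_rpow_atTop hδpos).comp tP
  have E1 : ∀ᶠ P : ℕ in atTop, max ((X₀ : ℝ) + 2) 4 * (4 / ε) ≤ (P : ℝ) :=
    tP.eventually_ge_atTop _
  have E2 : ∀ᶠ P : ℕ in atTop, 4 / c3 ≤ (P : ℝ) ^ (1 - δ) := t1.eventually_ge_atTop _
  have E3 : ∀ᶠ P : ℕ in atTop, max (2 / c3) (max (c3 / c2) (c3 * (2 * k))) ≤ (P : ℝ) ^ δ :=
    t2.eventually_ge_atTop _
  have E5 : ∀ᶠ P : ℕ in atTop, max (((X₀ : ℝ) + 2) / c2) (2 * k + 2) ≤ (P : ℝ) :=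
    tP.eventually_ge_atTop _
  filter_upwards [E1, E2, E3, E5] with P hE1 hE2 hE3 hE5
  intro l hl t ht1 ht2
  have hP1 : (1 : ℝ) ≤ P := by
    have := (le_max_right (((X₀ : ℝ) + 2) / c2) (2 * k + 2)).trans hE5
    linarith
  have hPpos : (0 : ℝ) < P := by linarith
  have hkP : 2 * (k : ℝ) ≤ P := by
    have := (le_max_right (((X₀ : ℝ) + 2) / c2) (2 * k + 2)).trans hE5
    linarith
  have hX0P : ((X₀ : ℝ) + 2) ≤ c2 * P := by
    have := (le_max_left (((X₀ : ℝ) + 2) / c2) (2 * k + 2)).trans hE5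
    rw [div_le_iff₀ hc2pos] at this
    linarith
  have hPδ : (P : ℝ) = (P : ℝ) ^ (1 - δ) * (P : ℝ) ^ δ := by
    rw [← Real.rpow_add hPpos]
    simp
  have hPp1 : 0 < (P : ℝ) ^ (1 - δ) := Real.rpow_pos_of_pos hPpos _
  have hE3a : 2 / c3 ≤ (P : ℝ) ^ δ := (le_max_left _ _).trans hE3
  have hE3b : c3 / c2 ≤ (P : ℝ) ^ δ := ((le_max_left _ _).trans (le_max_right _ _)).trans hE3
  have hE3c : c3 * (2 * k) ≤ (P : ℝ) ^ δ := ((le_max_right _ _).trans (le_max_right _ _)).trans hE3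
  -- the window
  set Yr : ℝ := c3 * (P : ℝ) ^ (1 - δ) with hYr
  have hYr4 : 4 ≤ Yr := by
    rw [hYr]
    rw [div_le_iff₀ hc3pos] at hE2
    linarith
  set Y' : ℕ := ⌊Yr⌋₊ - 1 with hY'
  have hfl1 : Yr < (⌊Yr⌋₊ : ℝ) + 1 := Nat.lt_floor_add_one _
  have hfl2 : (⌊Yr⌋₊ : ℝ) ≤ Yr := Nat.floor_le (by linarith)
  have hfl3 : 1 ≤ ⌊Yr⌋₊ := by
    have : (1 : ℝ) ≤ Yr := by linarith
    exact (Nat.one_le_floor_iff _).2 this
  have hY'r : (Y' : ℝ) = (⌊Yr⌋₊ : ℝ) - 1 := by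
    rw [hY', Nat.cast_sub hfl3]
    simp
  have hY'lo : Yr / 2 ≤ Y' := by rw [hY'r]; linarith
  have hY'hi : (Y' : ℝ) ≤ Yr - 1 := by rw [hY'r]; linarith
  have hYP : Yr ≤ c2 * P := by
    rw [hYr]
    rw [div_le_iff₀ hc2pos] at hE3b
    calc c3 * (P : ℝ) ^ (1 - δ) ≤ ((P : ℝ) ^ δ * c2) * (P : ℝ) ^ (1 - δ) :=
          mul_le_mul_of_nonneg_right hE3b hPp1.le
      _ = c2 * ((P : ℝ) ^ (1 - δ) * (P : ℝ) ^ δ) := by ring
      _ = c2 * P := by rw [← hPδ]
  have hYk : Yr ≤ P / (2 * k) := by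
    rw [le_div_iff₀ (by positivity), hYr]
    calc c3 * (P : ℝ) ^ (1 - δ) * (2 * k) = (c3 * (2 * k)) * (P : ℝ) ^ (1 - δ) := by ring
      _ ≤ (P : ℝ) ^ δ * (P : ℝ) ^ (1 - δ) := mul_le_mul_of_nonneg_right hE3c hPp1.le
      _ = P := by rw [mul_comm, ← hPδ]
  have hYl : (P : ℝ) ^ (1 - δ0) ≤ Y' := by
    refine le_trans ?_ hY'lo
    have h1 : (P : ℝ) ^ (1 - δ) = (P : ℝ) ^ (1 - δ0) * (P : ℝ) ^ δ := by
      rw [← Real.rpow_add hPpos]
      congr 1
      rw [hδ]; ring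
    rw [hYr, h1]
    rw [div_le_iff₀ hc3pos] at hE3a
    have h2 : 0 < (P : ℝ) ^ (1 - δ0) := Real.rpow_pos_of_pos hPpos _
    nlinarith
  have hlogP : 0 < Real.log P := by
    apply Real.log_pos
    have : (2 : ℝ) * 1 ≤ 2 * k := by linarith
    linarith
  -- the set of small primes
  set XA : ℕ := ⌊ε * P / 2⌋₊ with hXA
  have hεP : max ((X₀ : ℝ) + 2) 4 * 4 ≤ ε * P := by
    have := hE1
    rw [mul_div_assoc', div_le_iff₀ hεpos] at this
    linarith
  have hεP1 : ((X₀ : ℝ) + 2) * 4 ≤ ε * P :=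
    (mul_le_mul_of_nonneg_right (le_max_left _ _) (by norm_num)).trans hεP
  have hεP2 : (4 : ℝ) * 4 ≤ ε * P :=
    (mul_le_mul_of_nonneg_right (le_max_right _ _) (by norm_num)).trans hεP
  have hXA1 : ε * P / 2 < (XA : ℝ) + 1 := Nat.lt_floor_add_one _
  have hXA2 : (XA : ℝ) ≤ ε * P / 2 := Nat.floor_le (by positivity)
  have hXA3 : ε * P / 4 ≤ XA := by linarith
  have hXA4 : (XA : ℝ) ≤ P := by
    have : ε * P ≤ 1 * P := mul_le_mul_of_nonneg_right hε1 hPpos.le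
    linarith
  have hX0r : (2 : ℝ) ≤ X₀ := by exact_mod_cast hX0
  have hXA0 : X₀ ≤ XA := by
    have : (X₀ : ℝ) ≤ XA := by linarith
    exact_mod_cast this
  have hXA2' : (2 : ℝ) ≤ XA := by linarith
  set A : Finset ℕ := (Ioc XA (XA + XA)).filter Nat.Prime with hA
  have hAc : η * ε / 4 * P / Real.log P ≤ (A.card : ℝ) := by
    have hXpos : (0 : ℝ) < XA := by linarith
    have h1 := hpr XA XA hXA0 (by
      calc (XA : ℝ) ^ (1 - δ0) ≤ (XA : ℝ) ^ (1 : ℝ) :=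
            Real.rpow_le_rpow_of_exponent_le (by linarith) (by linarith)
        _ = XA := Real.rpow_one _) le_rfl
    refine le_trans ?_ h1
    have hlX : 0 < Real.log XA := Real.log_pos (by linarith)
    have h2 : Real.log XA ≤ Real.log P := Real.log_le_log hXpos hXA4
    have h3 : η * ε / 4 * P ≤ η * XA := by
      have := mul_le_mul_of_nonneg_left hXA3 hη.le
      linarith
    exact div_le_div₀ (by positivity) h3 hlX h2
  have hAmem : ∀ q ∈ A, q.Prime ∧ (q : ℝ) ≤ ε * P := by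
    intro q hq
    rw [hA, Finset.mem_filter, Finset.mem_Ioc] at hq
    refine ⟨hq.2, ?_⟩
    have : (q : ℝ) ≤ (XA : ℝ) + XA := by exact_mod_cast hq.1.2
    linarith
  -- the last coordinate
  set lam : ℝ := l (Fin.last k) with hlam
  have hlam1 : a ≤ lam := (hl (Fin.last k)).1
  have hlam2 : lam ≤ b := (hl (Fin.last k)).2
  have hlampos : 0 < lam := ha.trans_le hlam1
  obtain ⟨yy, hyy⟩ : ∃ yy : (Fin k → ℕ) → ℝ, ∀ x, yy x =
      t - ∑ i : Fin k, l i.castSucc * (x i : ℝ) ^ k := ⟨_, fun _ => rfl⟩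
  obtain ⟨zz, hzz⟩ : ∃ zz : (Fin k → ℕ) → ℝ, ∀ x, zz x = (yy x / lam) ^ ((k : ℝ)⁻¹) :=
    ⟨_, fun _ => rfl⟩
  obtain ⟨B, hB⟩ : ∃ B : (Fin k → ℕ) → Finset ℕ, ∀ x, B x =
      (Ioc (⌊zz x⌋₊ + 1) (⌊zz x⌋₊ + 1 + Y')).filter Nat.Prime := ⟨_, fun _ => rfl⟩
  have hPk : 0 < (P : ℝ) ^ k := by positivity
  have key : ∀ x ∈ Fintype.piFinset (fun _ : Fin k => A),
      0 ≤ zz x ∧ zz x ^ k = yy x / lam ∧ c2 * P ≤ zz x ∧ zz x ≤ θ * P := by
    intro x hx
    rw [Fintype.mem_piFinset] at hx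
    have hs1 : ∑ i : Fin k, l i.castSucc * (x i : ℝ) ^ k ≤ τ / 2 * (P : ℝ) ^ k := by
      calc ∑ i : Fin k, l i.castSucc * (x i : ℝ) ^ k ≤ ∑ _i : Fin k, b * (ε * P) ^ k := by
            refine Finset.sum_le_sum fun i _ => ?_
            exact mul_le_mul (hl _).2 (pow_le_pow_left₀ (Nat.cast_nonneg _) (hAmem _ (hx i)).2 k)
              (by positivity) hb.le
        _ = (k * b * ε ^ k) * (P : ℝ) ^ k := by
            rw [Finset.sum_const, Finset.card_univ, Fintype.card_fin, nsmul_eq_mul, mul_pow]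
            ring
        _ ≤ τ / 2 * (P : ℝ) ^ k := mul_le_mul_of_nonneg_right hεk hPk.le
    have hs0 : 0 ≤ ∑ i : Fin k, l i.castSucc * (x i : ℝ) ^ k :=
      Finset.sum_nonneg fun i _ => mul_nonneg (ha.le.trans (hl _).1) (by positivity)
    have hy1 : τ / 2 * (P : ℝ) ^ k ≤ yy x := by
      rw [hyy]; linarith
    have hy2 : yy x ≤ a * (P : ℝ) ^ k / 2 := by
      rw [hyy]; linarith
    have hy0 : 0 < yy x := lt_of_lt_of_le (by positivity) hy1
    have hz0 : 0 ≤ zz x := by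
      rw [hzz]; exact Real.rpow_nonneg (div_nonneg hy0.le hlampos.le) _
    have hzk : zz x ^ k = yy x / lam := by
      rw [hzz]; exact Real.rpow_inv_natCast_pow (div_nonneg hy0.le hlampos.le) hkne
    refine ⟨hz0, hzk, ?_, ?_⟩
    · refine le_of_pow_le_pow_left₀ hkne hz0 ?_
      rw [hzk, mul_pow, le_div_iff₀ hlampos]
      calc c2 ^ k * (P : ℝ) ^ k * lam ≤ τ / (2 * b) * (P : ℝ) ^ k * b := by
            refine mul_le_mul (mul_le_mul_of_nonneg_right hc2k hPk.le) hlam2 hlampos.le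
              (by positivity)
        _ = τ / 2 * (P : ℝ) ^ k := by field_simp
        _ ≤ yy x := hy1
    · refine le_of_pow_le_pow_left₀ hkne (by positivity) ?_
      rw [hzk, mul_pow, div_le_iff₀ hlampos]
      calc yy x ≤ a * (P : ℝ) ^ k / 2 := hy2
        _ = 1 / 2 * (P : ℝ) ^ k * a := by ring
        _ ≤ θ ^ k * (P : ℝ) ^ k * lam := by
            refine mul_le_mul (mul_le_mul_of_nonneg_right hθk hPk.le) hlam1 ha.le
              (by positivity)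
  have hθP : θ * P + P / (2 * k) = P := by
    rw [hθ]; field_simp; ring
  have hBc : ∀ x ∈ Fintype.piFinset (fun _ : Fin k => A),
      η * c3 / 2 * (P : ℝ) ^ (1 - δ) / Real.log P ≤ ((B x).card : ℝ) := by
    intro x hx
    rw [hB]
    obtain ⟨hz0, hzk, hz1, hz2⟩ := key x hx
    have hfz1 : zz x < (⌊zz x⌋₊ : ℝ) + 1 := Nat.lt_floor_add_one _
    have hfz2 : (⌊zz x⌋₊ : ℝ) ≤ zz x := Nat.floor_le hz0
    have hXle : ((⌊zz x⌋₊ + 1 : ℕ) : ℝ) ≤ P := by
      push_cast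
      linarith
    have hX0' : X₀ ≤ ⌊zz x⌋₊ + 1 := by
      have : (X₀ : ℝ) ≤ ((⌊zz x⌋₊ + 1 : ℕ) : ℝ) := by push_cast; linarith
      exact_mod_cast this
    have hXpos : (0 : ℝ) < ((⌊zz x⌋₊ + 1 : ℕ) : ℝ) := by positivity
    have h1 := hpr (⌊zz x⌋₊ + 1) Y' hX0' (by
      refine le_trans ?_ hYl
      exact Real.rpow_le_rpow hXpos.le hXle (by linarith)) (by
      have : (Y' : ℝ) ≤ ((⌊zz x⌋₊ + 1 : ℕ) : ℝ) := by
        push_cast
        linarith
      exact_mod_cast this)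
    refine le_trans ?_ h1
    have hX2 : (2 : ℝ) ≤ ((⌊zz x⌋₊ + 1 : ℕ) : ℝ) := by
      have : (X₀ : ℝ) ≤ ((⌊zz x⌋₊ + 1 : ℕ) : ℝ) := by exact_mod_cast hX0'
      linarith
    have hlX : 0 < Real.log ((⌊zz x⌋₊ + 1 : ℕ) : ℝ) := Real.log_pos (by linarith)
    have h2 : Real.log ((⌊zz x⌋₊ + 1 : ℕ) : ℝ) ≤ Real.log P := Real.log_le_log hXpos hXle
    have h3 : η * c3 / 2 * (P : ℝ) ^ (1 - δ) ≤ η * Y' := by
      have := mul_le_mul_of_nonneg_left hY'lo hη.le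
      rw [hYr] at this
      linarith
    exact div_le_div₀ (by positivity) h3 hlX h2
  -- the injection
  let S : Finset (Σ _ : Fin k → ℕ, ℕ) := (Fintype.piFinset (fun _ : Fin k => A)).sigma B
  let φ : (Σ _ : Fin k → ℕ, ℕ) → (Fin (k + 1) → ℕ) := fun p =>
    Fin.snoc (α := fun _ => ℕ) p.1 p.2
  have hinj : Set.InjOn φ (S : Set (Σ _ : Fin k → ℕ, ℕ)) := by
    rintro ⟨x, q⟩ _ ⟨x', q'⟩ _ h
    have h1 : x = x' := by
      funext i
      have := congrFun h i.castSucc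
      simpa [φ] using this
    have h2 : q = q' := by
      have := congrFun h (Fin.last k)
      simpa [φ] using this
    subst h1; subst h2; rfl
  have hmaps : ∀ p ∈ S, φ p ∈ (box (k + 1) P).filter (fun x => (∀ i, (x i).Prime) ∧ t < F k l x ∧
      F k l x ≤ t + (P : ℝ) ^ ((k : ℝ) - δ)) := by
    rintro ⟨x, q⟩ hp
    obtain ⟨hx, hq⟩ := Finset.mem_sigma.1 hp
    simp only [hB, Finset.mem_filter, Finset.mem_Ioc] at hq
    obtain ⟨hz0, hzk, hz1, hz2⟩ := key x hx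
    have hx' := (Fintype.mem_piFinset.1 hx)
    have hfz1 : zz x < (⌊zz x⌋₊ : ℝ) + 1 := Nat.lt_floor_add_one _
    have hfz2 : (⌊zz x⌋₊ : ℝ) ≤ zz x := Nat.floor_le hz0
    have hq1 : zz x < q := by
      have : ((⌊zz x⌋₊ + 1 : ℕ) : ℝ) < q := by exact_mod_cast hq.1.1
      push_cast at this
      linarith
    have hq2 : (q : ℝ) ≤ zz x + Yr := by
      have : (q : ℝ) ≤ ((⌊zz x⌋₊ + 1 + Y' : ℕ) : ℝ) := by exact_mod_cast hq.1.2
      push_cast at this
      linarith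
    have hqP : (q : ℝ) ≤ P := by linarith
    have hprime : ∀ i, (φ ⟨x, q⟩ i).Prime := by
      intro i
      refine Fin.lastCases ?_ (fun i => ?_) i
      · simpa [φ] using hq.2
      · simpa [φ] using (hAmem _ (hx' i)).1
    have hle : ∀ i, φ ⟨x, q⟩ i ≤ P := by
      intro i
      refine Fin.lastCases ?_ (fun i => ?_) i
      · have : q ≤ P := by exact_mod_cast hqP
        simpa [φ] using this
      · have h1 := (hAmem _ (hx' i)).2
        have h2 : ε * P ≤ 1 * P := mul_le_mul_of_nonneg_right hε1 hPpos.le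
        have h3 : ((x i : ℕ) : ℝ) ≤ P := by linarith
        have : x i ≤ P := by exact_mod_cast h3
        simpa [φ] using this
    have hF : F k l (φ ⟨x, q⟩) = (t - yy x) + lam * (q : ℝ) ^ k := by
      simp only [F, Fin.sum_univ_castSucc, φ, Fin.snoc_castSucc, Fin.snoc_last, hyy]
      ring
    have hyz : yy x = lam * zz x ^ k := by
      rw [hzk]; field_simp
    rw [Finset.mem_filter]
    refine ⟨?_, hprime, ?_, ?_⟩
    · unfold box
      rw [Fintype.mem_piFinset]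
      intro i
      exact Finset.mem_Icc.2 ⟨(hprime i).one_lt.le, hle i⟩
    · rw [hF, hyz]
      have h1 : zz x ^ k < (q : ℝ) ^ k := pow_lt_pow_left₀ hq1 hz0 hkne
      have h2 : lam * zz x ^ k < lam * (q : ℝ) ^ k := mul_lt_mul_of_pos_left h1 hlampos
      linarith
    · rw [hF, hyz]
      obtain ⟨m, rfl⟩ : ∃ m, k = m + 1 := ⟨k - 1, by omega⟩
      have h1 := pow_diff_aux hz0 hq1.le hqP m
      have h2 : ((m : ℝ) + 1) * (q - zz x) * (P : ℝ) ^ m ≤ ((m : ℝ) + 1) * Yr * (P : ℝ) ^ m := by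
        refine mul_le_mul_of_nonneg_right (mul_le_mul_of_nonneg_left (by linarith) (by positivity))
          (by positivity)
      have h3 : lam * ((q : ℝ) ^ (m + 1) - zz x ^ (m + 1)) ≤
          b * (((m : ℝ) + 1) * Yr * (P : ℝ) ^ m) := by
        refine mul_le_mul hlam2 (h1.trans h2) ?_ hb.le
        exact sub_nonneg.2 (pow_le_pow_left₀ hz0 hq1.le _)
      have h4 : b * (((m : ℝ) + 1) * Yr * (P : ℝ) ^ m) = (P : ℝ) ^ (((m + 1 : ℕ) : ℝ) - δ) := by
        have e1 : (P : ℝ) ^ (((m + 1 : ℕ) : ℝ) - δ) = (P : ℝ) ^ m * (P : ℝ) ^ (1 - δ) := by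
          rw [← Real.rpow_natCast (P : ℝ) m, ← Real.rpow_add hPpos]
          congr 1
          push_cast
          ring
        rw [e1, hYr, hc3]
        push_cast
        have hm1 : ((m : ℝ) + 1) ≠ 0 := by positivity
        field_simp
      linarith
  have hcard : (S.card : ℝ) ≤ (((box (k + 1) P).filter (fun x => (∀ i, (x i).Prime) ∧ t < F k l x ∧
      F k l x ≤ t + (P : ℝ) ^ ((k : ℝ) - δ))).card : ℝ) := by
    exact_mod_cast Finset.card_le_card_of_injOn φ hmaps hinj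
  refine le_trans ?_ hcard
  have hS : (S.card : ℝ) = ∑ x ∈ Fintype.piFinset (fun _ : Fin k => A), ((B x).card : ℝ) := by
    rw [Finset.card_sigma]
    push_cast
    rfl
  rw [hS]
  have h1 : ((Fintype.piFinset (fun _ : Fin k => A)).card : ℝ) *
      (η * c3 / 2 * (P : ℝ) ^ (1 - δ) / Real.log P) ≤
      ∑ x ∈ Fintype.piFinset (fun _ : Fin k => A), ((B x).card : ℝ) := by
    rw [← nsmul_eq_mul]
    exact Finset.card_nsmul_le_sum _ _ _ hBc
  refine le_trans ?_ h1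
  have h2 : ((Fintype.piFinset (fun _ : Fin k => A)).card : ℝ) = (A.card : ℝ) ^ k := by
    rw [Fintype.card_piFinset]
    simp
  rw [h2]
  have h3 : (η * ε / 4 * P / Real.log P) ^ k ≤ (A.card : ℝ) ^ k :=
    pow_le_pow_left₀ (by positivity) hAc k
  have h4 : 0 ≤ η * c3 / 2 * (P : ℝ) ^ (1 - δ) / Real.log P := by positivity
  refine le_trans (le_of_eq ?_) (mul_le_mul_of_nonneg_right h3 h4)
  have e1 : (P : ℝ) ^ ((k : ℝ) + 1 - δ) = (P : ℝ) ^ k * (P : ℝ) ^ (1 - δ) := by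
    rw [← Real.rpow_natCast (P : ℝ) k, ← Real.rpow_add hPpos]
    congr 1
    ring
  have e2 : (η * ε / 4 * P / Real.log P) ^ k = (η * ε / 4) ^ k * (P : ℝ) ^ k / (Real.log P) ^ k := by
    rw [div_pow, mul_pow]
  rw [e1, e2, pow_succ]
  generalize (η * ε / 4) ^ k = G
  field_simp

end TR1

end Pool.Agent.helper616_TW
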