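import Pool.Agent.helper616_TP.TP2

/-!
# Project TR (helper616): the variance for two primes
-/

set_option autoImplicit false
set_option maxHeartbeats 4000000

open Finset MeasureTheory Filter Topology
open Pool.Agent.helper616_TS (e LogBdd)

namespace Pool.Agent.helper616_TW

open TW2 (planch)
open TW3 (win_props)
open TX2 (prodmsw)

namespace TR2

open scoped ENNReal

theorem numA {n ξ H : ℝ} (hn : 0 ≤ n) (h2 : n ≤ 2) (hH : 0 < H) (h3 : n ≤ 4 * Real.pi * H * |ξ|) (hξ : ξ ≠ 0) :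
    n ^ 2 / ξ ^ 2 ≤ 2 * (1 / ((1 / (4 * Real.pi * H)) ^ 2 + (1 / 2) ^ 2 * ξ ^ 2)) := by
  have hpi := Real.pi_pos
  have hx : 0 < ξ ^ 2 := by positivity
  have hy : 0 < 4 * Real.pi * H := by positivity
  have h4 : n ^ 2 ≤ (4 * Real.pi * H) ^ 2 * ξ ^ 2 := by
    calc n ^ 2 ≤ (4 * Real.pi * H * |ξ|) ^ 2 := pow_le_pow_left₀ hn h3 2
      _ = _ := by rw [mul_pow, sq_abs]
  have h5 : n ^ 2 ≤ 4 := by nlinarith
  have hA : n ^ 2 / ξ ^ 2 * (1 / (4 * Real.pi * H)) ^ 2 ≤ 1 := by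
    rw [div_pow, one_pow, mul_one_div, div_div, div_le_one (by positivity)]
    linarith [mul_comm (ξ ^ 2) ((4 * Real.pi * H) ^ 2)]
  have hB : n ^ 2 / ξ ^ 2 * ((1 / 2) ^ 2 * ξ ^ 2) ≤ 1 := by
    have : n ^ 2 / ξ ^ 2 * ((1 / 2) ^ 2 * ξ ^ 2) = n ^ 2 / 4 := by
      field_simp
      norm_num
    rw [this]
    linarith
  rw [mul_one_div, le_div_iff₀ (by positivity), mul_add]
  linarith

theorem Gbound (C : ℝ) (hC : 0 < C) (P : ℕ) (hP : 2 ≤ P) (G : ℝ → ℝ≥0∞)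
    (hp1 : ∀ ξ : ℝ, 1 ≤ (P : ℝ) ^ 1 * |ξ| → G ξ ≤ ENNReal.ofReal (C * ((P : ℝ) ^ (1 + 1) +
      (P : ℝ) ^ (2 * (1 + 1)) * ((P : ℝ) ^ 1 * |ξ|) ^ (-(((1 + 1 : ℕ) : ℝ) * rho 1)))))
    (hp2 : ∀ ξ : ℝ, G ξ ≤ ENNReal.ofReal (C * (P : ℝ) ^ (2 * (1 + 1)))) (ξ : ℝ) (hξ : ξ ≠ 0) :
    G ξ ≤ ENNReal.ofReal (C * ((P : ℝ) ^ 2 * (1 + 1 / ξ ^ 2))) := by
  have hP0 : (0 : ℝ) < P := by exact_mod_cast (by omega : 0 < P)
  have hx : 0 < |ξ| := abs_pos.2 hξ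
  have hx2 : 0 < ξ ^ 2 := by positivity
  rcases le_or_gt 1 ((P : ℝ) ^ 1 * |ξ|) with h1 | h1
  · refine (hp1 ξ h1).trans (ENNReal.ofReal_le_ofReal ?_)
    apply mul_le_mul_of_nonneg_left _ hC.le
    have hr : rho 1 = 1 := by
      unfold rho
      norm_num
    rw [hr]
    have e1 : ((P : ℝ) ^ 1 * |ξ|) ^ (-(((1 + 1 : ℕ) : ℝ) * 1)) = 1 / ((P : ℝ) ^ 2 * ξ ^ 2) := by
      have : (-(((1 + 1 : ℕ) : ℝ) * 1)) = -((2 : ℕ) : ℝ) := by norm_num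
      rw [this, Real.rpow_neg (by positivity), Real.rpow_natCast, pow_one, mul_pow, sq_abs, one_div]
    rw [e1]
    have e2 : (P : ℝ) ^ (2 * (1 + 1)) * (1 / ((P : ℝ) ^ 2 * ξ ^ 2)) = (P : ℝ) ^ 2 * (1 / ξ ^ 2) := by
      field_simp
    rw [e2, mul_add, mul_one]
  · refine (hp2 ξ).trans (ENNReal.ofReal_le_ofReal ?_)
    apply mul_le_mul_of_nonneg_left _ hC.le
    have h2 : (P : ℝ) ^ 2 * ξ ^ 2 ≤ 1 := by
      have h3 : ((P : ℝ) ^ 1 * |ξ|) ^ 2 ≤ 1 := pow_le_one₀ (by positivity) h1.le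
      rwa [pow_one, mul_pow, sq_abs] at h3
    have h4 : (P : ℝ) ^ 2 ≤ 1 / ξ ^ 2 := by
      rw [le_div_iff₀ hx2]
      exact h2
    calc (P : ℝ) ^ (2 * (1 + 1)) = (P : ℝ) ^ 2 * (P : ℝ) ^ 2 := by ring
      _ ≤ (P : ℝ) ^ 2 * (1 / ξ ^ 2) := mul_le_mul_of_nonneg_left h4 (by positivity)
      _ ≤ _ := mul_le_mul_of_nonneg_left (by linarith) (by positivity)

open FourierTransform in
theorem variance1 (hPl : ∀ (g : ℝ → ℂ), Integrable g → MemLp g 2 →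
      ∫⁻ ξ : ℝ, ‖𝓕 g ξ‖ₑ ^ 2 = ∫⁻ z : ℝ, ‖g z‖ₑ ^ 2)
    (a b h : ℝ) (ha : 0 < a) (hab : a < b) (hh : 0 < h) :
    ∃ (C : ℝ) (K : ℕ), 0 < C ∧ ∀ P : ℕ, 2 ≤ P → ∀ H : ℝ, 1 ≤ H → h ≤ H → H ≤ (P : ℝ) ^ 1 →
      ∫⁻ l in cube (1 + 1) a b, ∫⁻ t : ℝ, ‖∑ x ∈ box (1 + 1) P, (W (fun _ => pr) x : ℂ) * win h H (F 1 l x - t)‖ₑ ^ 2 ≤
        ENNReal.ofReal (C * (Real.log P) ^ K * ((P : ℝ) ^ 2 * H)) := by
  obtain ⟨C, K, hC, hprod⟩ := prodmsw 1 le_rfl a b ha hab (1 + 1) (fun _ => pr) (fun _ => TP2.logBdd_pr)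
  have hpi := Real.pi_pos
  refine ⟨C * (4 * Real.pi / h + 16 * Real.pi ^ 2), K, by positivity, fun P hP H hH1 hhH hHP => ?_⟩
  obtain ⟨hp1, hp2⟩ := hprod P hP
  have hP2 : (2 : ℝ) ≤ P := by exact_mod_cast hP
  have hP0 : (0 : ℝ) < P := by linarith
  have hL0 : 0 < Real.log P := Real.log_pos (by linarith)
  have hH0 : 0 < H := by linarith
  obtain ⟨hg, hg2, hgm, hW2, hWH, hWh⟩ := win_props h H hh hhH
  -- Plancherel
  have h1 : ∀ l : Fin (1 + 1) → ℝ,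
      ∫⁻ t : ℝ, ‖∑ x ∈ box (1 + 1) P, (W (fun _ => pr) x : ℂ) * win h H (F 1 l x - t)‖ₑ ^ 2 =
      ∫⁻ ξ : ℝ, ‖𝓕 (win h H) ξ‖ₑ ^ 2 * ‖S 1 P (fun _ => pr) l ξ‖ₑ ^ 2 := by
    intro l
    exact planch hPl (box (1 + 1) P) (W (fun _ => pr)) (F 1 l) (win h H) hg hg2
  have hcont := TX3.cont_S (s := 1 + 1) 1 P (fun _ => pr)
  have hmeas : Measurable (Function.uncurry fun (l : Fin (1 + 1) → ℝ) (ξ : ℝ) =>
      ‖𝓕 (win h H) ξ‖ₑ ^ 2 * ‖S 1 P (fun _ => pr) l ξ‖ₑ ^ 2) := by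
    exact (((hgm.comp measurable_snd).enorm).pow_const 2).mul
      ((hcont.measurable.enorm).pow_const 2)
  have h2 : ∫⁻ l in cube (1 + 1) a b, ∫⁻ t : ℝ,
      ‖∑ x ∈ box (1 + 1) P, (W (fun _ => pr) x : ℂ) * win h H (F 1 l x - t)‖ₑ ^ 2 =
      ∫⁻ ξ : ℝ, ‖𝓕 (win h H) ξ‖ₑ ^ 2 *
        ∫⁻ l in cube (1 + 1) a b, ‖S 1 P (fun _ => pr) l ξ‖ₑ ^ 2 := by
    simp only [h1]
    rw [lintegral_lintegral_swap hmeas.aemeasurable]
    refine lintegral_congr fun ξ => ?_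
    rw [lintegral_const_mul']
    exact ENNReal.pow_ne_top enorm_ne_top
  rw [h2]
  have hA : 0 < C * (Real.log P) ^ K := by positivity
  have h3 : ∀ᵐ ξ : ℝ, ‖𝓕 (win h H) ξ‖ₑ ^ 2 *
        ∫⁻ l in cube (1 + 1) a b, ‖S 1 P (fun _ => pr) l ξ‖ₑ ^ 2 ≤
      ENNReal.ofReal (C * (Real.log P) ^ K * (P : ℝ) ^ 2 * 8) * ENNReal.ofReal (1 / (1 ^ 2 + (2 * h) ^ 2 * ξ ^ 2)) +
      ENNReal.ofReal (C * (Real.log P) ^ K * (P : ℝ) ^ 2 * 2) *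
        ENNReal.ofReal (1 / ((1 / (4 * Real.pi * H)) ^ 2 + (1 / 2) ^ 2 * ξ ^ 2)) := by
    have hne : ∀ᵐ ξ : ℝ, ξ ≠ 0 := by
      rw [ae_iff]
      simp
    filter_upwards [hne] with ξ hξ
    have hG := Gbound (C * (Real.log P) ^ K) hA P hP (fun ξ => ∫⁻ l in cube (1 + 1) a b, ‖S 1 P (fun _ => pr) l ξ‖ₑ ^ 2)
      hp1 hp2 ξ hξ
    have e1 : ‖𝓕 (win h H) ξ‖ₑ ^ 2 = ENNReal.ofReal (‖𝓕 (win h H) ξ‖ ^ 2) := by
      rw [← ofReal_norm, ENNReal.ofReal_pow (norm_nonneg _)]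
    obtain ⟨n, hn⟩ : ∃ n, n = ‖𝓕 (win h H) ξ‖ := ⟨_, rfl⟩
    have hn0 : 0 ≤ n := hn ▸ norm_nonneg _
    have hn2 : n ≤ 2 := hn ▸ hW2 ξ
    have hnH : n ≤ 4 * Real.pi * H * |ξ| := hn ▸ hWH ξ
    have hnh : n ≤ 1 / (h * |ξ|) := hn ▸ hWh ξ hξ
    rw [e1, ← hn]
    have h4 := TX3.boundA hn0 hn2 hh hnh hξ
    have h5 := numA hn0 hn2 hH0 hnH hξ
    have hx2 : 0 < ξ ^ 2 := by positivity
    calc ENNReal.ofReal (n ^ 2) * ∫⁻ l in cube (1 + 1) a b, ‖S 1 P (fun _ => pr) l ξ‖ₑ ^ 2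
        ≤ ENNReal.ofReal (n ^ 2) * ENNReal.ofReal (C * (Real.log P) ^ K * ((P : ℝ) ^ 2 * (1 + 1 / ξ ^ 2))) := by
          gcongr
      _ = ENNReal.ofReal (n ^ 2 * (C * (Real.log P) ^ K * ((P : ℝ) ^ 2 * (1 + 1 / ξ ^ 2)))) :=
          (ENNReal.ofReal_mul (by positivity)).symm
      _ ≤ ENNReal.ofReal (C * (Real.log P) ^ K * (P : ℝ) ^ 2 * 8 * (1 / (1 ^ 2 + (2 * h) ^ 2 * ξ ^ 2)) +
          C * (Real.log P) ^ K * (P : ℝ) ^ 2 * 2 *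
            (1 / ((1 / (4 * Real.pi * H)) ^ 2 + (1 / 2) ^ 2 * ξ ^ 2))) := by
          apply ENNReal.ofReal_le_ofReal
          have e2 : n ^ 2 * (C * (Real.log P) ^ K * ((P : ℝ) ^ 2 * (1 + 1 / ξ ^ 2))) =
            C * (Real.log P) ^ K * (P : ℝ) ^ 2 * n ^ 2 + C * (Real.log P) ^ K * (P : ℝ) ^ 2 * (n ^ 2 / ξ ^ 2) := by
            ring
          rw [e2]
          have hB : 0 ≤ C * (Real.log P) ^ K * (P : ℝ) ^ 2 := by positivity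
          have h6 := mul_le_mul_of_nonneg_left h4 hB
          have h7 := mul_le_mul_of_nonneg_left h5 hB
          rw [← mul_assoc] at h6 h7
          exact add_le_add h6 h7
      _ = _ := by
          rw [ENNReal.ofReal_add (by positivity) (by positivity),
            ENNReal.ofReal_mul (p := C * (Real.log P) ^ K * (P : ℝ) ^ 2 * 8) (by positivity),
            ENNReal.ofReal_mul (p := C * (Real.log P) ^ K * (P : ℝ) ^ 2 * 2) (by positivity)]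
  refine (lintegral_mono_ae h3).trans ?_
  rw [lintegral_add_left (by fun_prop), lintegral_const_mul _ (by fun_prop), lintegral_const_mul _ (by fun_prop),
    TX3.lint_cauchy 1 (2 * h) one_pos (by positivity),
    TX3.lint_cauchy (1 / (4 * Real.pi * H)) (1 / 2) (by positivity) (by norm_num),
    ← ENNReal.ofReal_mul (by positivity), ← ENNReal.ofReal_mul (by positivity),
    ← ENNReal.ofReal_add (by positivity) (by positivity)]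
  apply ENNReal.ofReal_le_ofReal
  have e3 : C * (Real.log P) ^ K * (P : ℝ) ^ 2 * 8 * (Real.pi / (1 * (2 * h))) +
      C * (Real.log P) ^ K * (P : ℝ) ^ 2 * 2 * (Real.pi / (1 / (4 * Real.pi * H) * (1 / 2))) =
      C * (Real.log P) ^ K * (P : ℝ) ^ 2 * (4 * Real.pi / h + 16 * Real.pi ^ 2 * H) := by
    field_simp
    ring
  rw [e3]
  have h8 : 4 * Real.pi / h + 16 * Real.pi ^ 2 * H ≤ (4 * Real.pi / h + 16 * Real.pi ^ 2) * H := by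
    have : 4 * Real.pi / h ≤ 4 * Real.pi / h * H := le_mul_of_one_le_right (by positivity) hH1
    linarith
  calc _ ≤ C * (Real.log P) ^ K * (P : ℝ) ^ 2 * ((4 * Real.pi / h + 16 * Real.pi ^ 2) * H) :=
        mul_le_mul_of_nonneg_left h8 (by positivity)
    _ = _ := by ring

end TR2

end Pool.Agent.helper616_TW
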