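import Pool.Agent.helper616_TP.TP3
import Pool.Agent.helper616_TR.TR1
import Pool.Agent.helper616_TR.TR2

/-!
# Project TR (helper616): the exceptional set for two primes
-/

set_option autoImplicit false
set_option maxHeartbeats 4000000

open Finset MeasureTheory Filter Topology
open Pool.Agent.helper616_TS (e LogBdd)

namespace Pool.Agent.helper616_TW

open TR1 (lowerP)
open TR2 (variance1)
open TP3

namespace TR3

theorem bad0_of (k : ℕ) (hk : 1 ≤ k) (δ : ℝ) (hδ0 : 0 < δ) (hδ1 : δ < 1) (a b τ h : ℝ) (hh : 0 < h)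
    (hvar : ∃ (C : ℝ) (K : ℕ), 0 < C ∧ ∀ P : ℕ, 2 ≤ P → ∀ H : ℝ, 1 ≤ H → h ≤ H → H ≤ (P : ℝ) ^ k →
      ∫⁻ l in cube (k + 1) a b, ∫⁻ t : ℝ, ‖∑ x ∈ box (k + 1) P, (W (fun _ => pr) x : ℂ) * win h H (F k l x - t)‖ₑ ^ 2 ≤
        ENNReal.ofReal (C * (Real.log P) ^ K * ((P : ℝ) ^ 2 * H)))
    (hlow' : ∃ c : ℝ, 0 < c ∧ ∀ᶠ P : ℕ in atTop, ∀ l ∈ cube (k + 1) a b, ∀ t : ℝ,
      τ * (P : ℝ) ^ k ≤ t → t ≤ a * (P : ℝ) ^ k / 2 →
      c * (P : ℝ) ^ ((k : ℝ) + 1 - δ) / (Real.log P) ^ (k + 1) ≤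
        (((box (k + 1) P).filter (fun x => (∀ i, (x i).Prime) ∧ t < F k l x ∧ F k l x ≤ t + (P : ℝ) ^ ((k : ℝ) - δ))).card : ℝ)) :
    ∃ (C : ℝ) (K : ℕ), ∀ᶠ P : ℕ in atTop, ∫⁻ l in cube (k + 1) a b, volume (badP k P a τ h l) ≤
      ENNReal.ofReal (C * (Real.log P) ^ K * (P : ℝ) ^ ((k : ℝ) - δ)) := by
  obtain ⟨C, K, hC, hvar⟩ := hvar
  obtain ⟨c, hc, hlow⟩ := hlow'
  have hk0 : (0 : ℝ) < k := by exact_mod_cast (by omega : 0 < k)
  have hk2 : (1 : ℝ) ≤ k := by exact_mod_cast hk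
  have hkδ : 0 < (k : ℝ) - δ := by linarith
  refine ⟨C * 2 / c ^ 2, K + (2 * k + 2), ?_⟩
  have hH1 : ∀ᶠ P : ℕ in atTop, max 1 h ≤ (P : ℝ) ^ ((k : ℝ) - δ) :=
    ((tendsto_rpow_atTop hkδ).comp tendsto_natCast_atTop_atTop).eventually_ge_atTop _
  filter_upwards [hlow, eventually_ge_atTop 2, hH1] with P hP hP2 hP3
  have hPr : (2 : ℝ) ≤ P := by exact_mod_cast hP2
  have hP0 : (0 : ℝ) < P := by linarith
  have hP1 : (1 : ℝ) ≤ P := by linarith
  have hlog : 0 < Real.log P := Real.log_pos (by linarith)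
  set L : ℝ := Real.log P with hLdef
  set H : ℝ := (P : ℝ) ^ ((k : ℝ) - δ) with hHdef
  have hH0 : 0 < H := Real.rpow_pos_of_pos hP0 _
  have hHP : H ≤ (P : ℝ) ^ k := by
    rw [← Real.rpow_natCast, hHdef]
    exact Real.rpow_le_rpow_of_exponent_le hP1 (by linarith)
  have hv := hvar P hP2 H ((le_max_left _ _).trans hP3) ((le_max_right _ _).trans hP3) hHP
  set q : ℝ := c * P / L ^ (k + 1) with hq
  have hq0 : 0 < q := by positivity
  -- the lower bound of the inner integral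
  have hin : ∀ l ∈ cube (k + 1) a b, ENNReal.ofReal (q ^ 2) * volume (badP k P a τ h l) ≤
      ∫⁻ t : ℝ, ‖∑ x ∈ box (k + 1) P, (W (fun _ => pr) x : ℂ) * win h H (F k l x - t)‖ₑ ^ 2 := by
    intro l hl
    calc ENNReal.ofReal (q ^ 2) * volume (badP k P a τ h l)
        = ∫⁻ _ in badP k P a τ h l, ENNReal.ofReal (q ^ 2) := by
          rw [setLIntegral_const]
      _ ≤ ∫⁻ t in badP k P a τ h l,
            ‖∑ x ∈ box (k + 1) P, (W (fun _ => pr) x : ℂ) * win h H (F k l x - t)‖ₑ ^ 2 := by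
          refine setLIntegral_mono' (tp3_bad_meas k P a τ h l) fun t ht => ?_
          have hR0 : tp3R k P l t h = 0 := by
            rw [tp3R, Finset.card_eq_zero, Finset.filter_eq_empty_iff]
            intro x hx hx2
            exact ht.2.2 x hx hx2.1 hx2.2
          have hR1 : c * (P : ℝ) ^ ((k : ℝ) + 1 - δ) / L ^ (k + 1) ≤ (tp3R k P l t H : ℝ) :=
            hP l hl t ht.1 ht.2.1
          rw [tp3_sum_win, hR0]
          rw [← ofReal_norm, ← ENNReal.ofReal_pow (norm_nonneg _)]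
          refine ENNReal.ofReal_le_ofReal ?_
          refine pow_le_pow_left₀ hq0.le ?_ 2
          rw [Complex.norm_real, Nat.cast_zero, zero_div, zero_sub, norm_neg, Real.norm_of_nonneg
            (by positivity)]
          rw [le_div_iff₀ hH0]
          refine le_trans (le_of_eq ?_) hR1
          have e1 : (P : ℝ) ^ ((k : ℝ) + 1 - δ) = P * H := by
            rw [hHdef, show (k : ℝ) + 1 - δ = 1 + ((k : ℝ) - δ) by ring, Real.rpow_add hP0,
              Real.rpow_one]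
          rw [e1, hq]
          ring
      _ ≤ _ := setLIntegral_le_lintegral _ _
  have hout : ENNReal.ofReal (q ^ 2) * ∫⁻ l in cube (k + 1) a b, volume (badP k P a τ h l) ≤
      ENNReal.ofReal (C * L ^ K * ((P : ℝ) ^ 2 * H)) := by
    rw [← lintegral_const_mul' _ _ ENNReal.ofReal_ne_top]
    exact le_trans (setLIntegral_mono' (tp3_cube_meas _ _ _) hin) hv
  have hfin : C * L ^ K * ((P : ℝ) ^ 2 * H) ≤
      q ^ 2 * (C * 2 / c ^ 2 * L ^ (K + (2 * k + 2)) * H) := by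
    have e2 : q ^ 2 * (C * 2 / c ^ 2 * L ^ (K + (2 * k + 2)) * H) =
        C * L ^ K * ((P : ℝ) ^ 2 * H + (P : ℝ) ^ 2 * H) := by
      have e3 : L ^ (K + (2 * k + 2)) = L ^ K * (L ^ (k + 1)) ^ 2 := by
        rw [pow_add, ← pow_mul]
        congr 2
        ring
      rw [e3, hq]
      field_simp
      ring
    rw [e2]
    refine mul_le_mul_of_nonneg_left ?_ (by positivity)
    have : 0 ≤ (P : ℝ) ^ 2 * H := by positivity
    linarith
  have h6 := hout.trans (ENNReal.ofReal_le_ofReal hfin)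
  rw [ENNReal.ofReal_mul (by positivity)] at h6
  have h7 : ENNReal.ofReal (q ^ 2) ≠ 0 := by
    rw [Ne, ENNReal.ofReal_eq_zero, not_le]; positivity
  exact (ENNReal.mul_le_mul_iff_right h7 ENNReal.ofReal_ne_top).1 h6

open FourierTransform in
theorem bad01 (hPl : ∀ (g : ℝ → ℂ), Integrable g → MemLp g 2 →
      ∫⁻ ξ : ℝ, ‖𝓕 g ξ‖ₑ ^ 2 = ∫⁻ z : ℝ, ‖g z‖ₑ ^ 2) (hH : Hoheisel) :
    ∃ δ : ℝ, 0 < δ ∧ δ < 1 ∧ ∀ (a b : ℝ) (_ : 0 < a) (_ : a < b) (τ h : ℝ) (_ : 0 < τ) (_ : τ < a / 2)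
      (_ : 0 < h), ∃ (C : ℝ) (K : ℕ), ∀ᶠ P : ℕ in atTop, ∫⁻ l in cube (1 + 1) a b, volume (badP 1 P a τ h l) ≤
      ENNReal.ofReal (C * (Real.log P) ^ K * (P : ℝ) ^ (((1 : ℕ) : ℝ) - δ)) := by
  obtain ⟨δ, hδ0, hδ1, hL⟩ := lowerP hH
  refine ⟨δ, hδ0, hδ1, fun a b ha hab τ h hτ hτa hh => ?_⟩
  exact bad0_of 1 le_rfl δ hδ0 hδ1 a b τ h hh (variance1 hPl a b h ha hab hh) (hL 1 le_rfl a b τ ha hab hτ hτa)

end TR3

end Pool.Agent.helper616_TW
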