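import Pool.Agent.helper616_TR.Defs

/-!
# Project TR (helper616): measurability
-/

set_option autoImplicit false
set_option maxHeartbeats 4000000

open Finset MeasureTheory Filter Topology
open Pool.Agent.helper616_TS (e LogBdd)

namespace Pool.Agent.helper616_TW

namespace TR4


theorem meas_badA {s : ℕ} (A : ℕ → Set ℕ) (k P : ℕ) (a τ h : ℝ) :
    MeasurableSet {p : (Fin s → ℝ) × ℝ | p.2 ∈ badA A k P a τ h p.1} ∧
      Measurable (fun l : Fin s → ℝ => volume (badA A k P a τ h l)) := by
  classical
  have hF : ∀ x : Fin s → ℕ, Measurable fun p : (Fin s → ℝ) × ℝ => F k p.1 x := by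
    intro x
    unfold F
    apply Finset.measurable_sum
    intro i _
    exact ((measurable_pi_apply i).comp measurable_fst).mul_const _
  have h1 : MeasurableSet {p : (Fin s → ℝ) × ℝ | p.2 ∈ badA A k P a τ h p.1} := by
    have e : {p : (Fin s → ℝ) × ℝ | p.2 ∈ badA A k P a τ h p.1} =
        ({p : (Fin s → ℝ) × ℝ | τ * (P : ℝ) ^ k ≤ p.2} ∩ {p | p.2 ≤ a * (P : ℝ) ^ k / 2}) ∩
          ⋂ x ∈ (box s P).filter (fun x => Ok A x),
            ({p : (Fin s → ℝ) × ℝ | p.2 < F k p.1 x} ∩ {p | F k p.1 x ≤ p.2 + h})ᶜ := by
      ext p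
      simp only [badA, Set.mem_setOf_eq, Set.mem_inter_iff, Set.mem_iInter, Set.mem_compl_iff,
        Finset.mem_filter, and_imp, and_assoc]
    rw [e]
    refine MeasurableSet.inter (MeasurableSet.inter ?_ ?_) ?_
    · exact measurableSet_le measurable_const measurable_snd
    · exact measurableSet_le measurable_snd measurable_const
    · refine Finset.measurableSet_biInter _ fun x _ => ?_
      refine MeasurableSet.compl (MeasurableSet.inter ?_ ?_)
      · exact measurableSet_lt measurable_snd (hF x)
      · exact measurableSet_le (hF x) (measurable_snd.add_const h)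
  exact ⟨h1, measurable_measure_prodMk_left h1⟩

end TR4

end Pool.Agent.helper616_TW
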