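import Pool.Agent.helper616_TS.Dep
import Pool.Agent.H295R3.Hoheisel
import Pool.Agent.helper616_TW.TW12
import Pool.Agent.helper616_TP.Main
import Pool.Agent.helper616_TR.TR3
import Pool.Agent.helper616_TR.TR5
import Pool.Agent.helper616_TR.TR6

/-!
# Project TR (helper616): two primes and elements of given sequences, with almost all real coefficients
-/

set_option autoImplicit false

open Finset MeasureTheory Filter Topology
open Pool.Agent.helper616_TS (t_Pl)

namespace Pool.Agent.helper616_TW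

/-- for two variables in the primes the two exceptional sets agree -/
theorem badA_two (A : ℕ → Set ℕ) (hA : ∀ i < 2, A i = {p | p.Prime}) (P : ℕ) (a τ h : ℝ) (l : Fin 2 → ℝ) :
    badA A 1 P a τ h l = badP 1 P a τ h l := by
  have hOk : ∀ x : Fin 2 → ℕ, Ok A x ↔ ∀ i, (x i).Prime := by
    intro x
    unfold Ok
    refine forall_congr' fun i => ?_
    rw [hA _ (by omega)]
    rfl
  unfold badA badP
  simp only [hOk]

/-- the first two sets `A 0`, `A 1` are the primes, the next `m` have bounded ratios -/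
theorem two_primes : ∃ m : ℕ, ∀ (A : ℕ → Set ℕ) (R : ℝ), 1 ≤ R → (∀ i < 2, A i = {p | p.Prime}) →
    (∀ i, 2 ≤ i → i < 2 + m → Ratio R (A i)) →
    ∀ᵐ l : Fin (2 + m) → ℝ, (∀ i, 0 < l i) → ∀ h : ℝ, 0 < h → ∀ᶠ t : ℝ in atTop,
      ∃ x : Fin (2 + m) → ℕ, Ok A x ∧ t < F 1 l x ∧ F 1 l x ≤ t + h := by
  obtain ⟨δ, hδ, hδ1, h0⟩ := TR3.bad01 t_Pl hoh
  obtain ⟨n, hn⟩ := exists_nat_gt (1 / δ)
  have hn2 : (n : ℝ) < 2 ^ n := by exact_mod_cast Nat.lt_two_pow_self
  have h1 : ((1 : ℕ) : ℝ) < δ * 2 ^ n := by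
    rw [div_lt_iff₀ hδ] at hn
    push_cast
    nlinarith
  refine ⟨n, fun A R hR hA hAR => ?_⟩
  refine TW12.allpos _ _ fun a b ha hab => ?_
  refine TR6.cubesA A 1 2 le_rfl a b δ ha hab hδ hδ1 n h1 ?_
  refine TR5.iterA A 1 2 le_rfl a b δ ha hab hδ hδ1 (fun τ h hτ hτa hh => ?_) R hR n hAR
  obtain ⟨C, K, hC⟩ := h0 a b ha hab τ h hτ hτa hh
  refine ⟨C, K, ?_⟩
  filter_upwards [hC] with P hP
  refine le_trans (le_of_eq ?_) hP
  exact lintegral_congr fun l => by rw [badA_two A hA]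

end Pool.Agent.helper616_TW
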