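import Pool.Agent.helper616_TP.Defs

/-!
# Project TR (helper616): two primes and elements of given sequences, with almost all real coefficients
-/

set_option autoImplicit false

open Finset MeasureTheory Filter Topology

namespace Pool.Agent.helper616_TW

/-- the coordinate number `i` from the end lies in `A i` -/
def Ok (A : ℕ → Set ℕ) {s : ℕ} (x : Fin s → ℕ) : Prop := ∀ i : Fin s, x i ∈ A (s - 1 - i.val)

/-- the exceptional set: no representation with variables in the given sets -/
def badA {s : ℕ} (A : ℕ → Set ℕ) (k P : ℕ) (a τ h : ℝ) (l : Fin s → ℝ) : Set ℝ :=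
  {t | τ * (P : ℝ) ^ k ≤ t ∧ t ≤ a * (P : ℝ) ^ k / 2 ∧
    ∀ x ∈ box s P, Ok A x → ¬ (t < F k l x ∧ F k l x ≤ t + h)}

/-- a set with an element in every interval `[X, R X]` -/
def Ratio (R : ℝ) (Z : Set ℕ) : Prop := ∀ X : ℝ, 1 ≤ X → ∃ z ∈ Z, X ≤ z ∧ (z : ℝ) ≤ R * X

end Pool.Agent.helper616_TW
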