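import Pool.Agent.helper616_TR.Main

/-!
# Project TR (helper616): two primes and elements of given sequences, explicit form
-/

set_option autoImplicit false

open Finset MeasureTheory Filter Topology

namespace Pool.Agent.helper616_TW

theorem two_primes' : ∃ m : ℕ, ∀ (R : ℝ) (Z : ℕ → Set ℕ),
    (∀ i < m, ∀ X : ℝ, 1 ≤ X → ∃ z ∈ Z i, X ≤ z ∧ (z : ℝ) ≤ R * X) →
    ∀ᵐ l : Fin (2 + m) → ℝ, (∀ i, 0 < l i) → ∀ h : ℝ, 0 < h → ∀ᶠ t : ℝ in atTop,
      ∃ x : Fin (2 + m) → ℕ, (∀ i : Fin (2 + m), i.val < m → x i ∈ Z i.val) ∧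
        (∀ i : Fin (2 + m), m ≤ i.val → (x i).Prime) ∧
        t < ∑ i, l i * (x i : ℝ) ∧ ∑ i, l i * (x i : ℝ) ≤ t + h := by
  obtain ⟨m, hm⟩ := two_primes
  refine ⟨m, fun R Z hZ => ?_⟩
  have h1 := hm (fun j => if j < 2 then {p | p.Prime} else Z (m + 1 - j)) (max R 1) (le_max_right _ _)
    (fun i hi => by simp [hi]) (fun i hi hi2 => by
      intro X hX
      obtain ⟨z, hz, hz1, hz2⟩ := hZ (m + 1 - i) (by omega) X hX
      refine ⟨z, ?_, hz1, hz2.trans ?_⟩
      · have : ¬ i < 2 := by omega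
        simp only [this, if_false]
        exact hz
      · exact mul_le_mul_of_nonneg_right (le_max_left _ _) (by linarith))
  filter_upwards [h1] with l hl hpos h hh
  filter_upwards [hl hpos h hh] with t ht
  obtain ⟨x, hx, hx1, hx2⟩ := ht
  have hF : F 1 l x = ∑ i, l i * (x i : ℝ) := by
    unfold F
    simp
  rw [hF] at hx1 hx2
  refine ⟨x, fun i hi => ?_, fun i hi => ?_, hx1, hx2⟩
  · have h2 := hx i
    have h3 : ¬ (2 + m - 1 - i.val < 2) := by omega
    have h4 : m + 1 - (2 + m - 1 - i.val) = i.val := by omega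
    simp only [h3, if_false, h4] at h2
    exact h2
  · have h2 := hx i
    have h3 : 2 + m - 1 - i.val < 2 := by omega
    simp only [h3, if_true] at h2
    exact h2

end Pool.Agent.helper616_TW
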